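import Mathlib
import Pool.Agent.MP_807c24_nt.H28.Defs

/-! Pigeonhole principle for real linear forms and Dirichlet transference. -/

set_option autoImplicit false

namespace Pool.Agent.MP_807c24_nt.H84

open Finset

/-- Cutting `[-T, T]` into `L` boxes of length `2 T / L`. -/
theorem exists_boxes (T : ℝ) (L : ℕ) (hL : 0 < L) :
    ∃ f : ℝ → Fin L, ∀ x y : ℝ, |x| ≤ T → |y| ≤ T → f x = f y → |x - y| ≤ 2 * T / L := by
  have hLr : (0 : ℝ) < L := by exact_mod_cast hL
  rcases le_or_gt T 0 with hT | hT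
  · refine ⟨fun _ => ⟨0, hL⟩, fun x y hx hy _ => ?_⟩
    have hT0 : T = 0 := le_antisymm hT ((abs_nonneg x).trans hx)
    subst hT0
    have hx0 : x = 0 := abs_eq_zero.mp (le_antisymm hx (abs_nonneg _))
    have hy0 : y = 0 := abs_eq_zero.mp (le_antisymm hy (abs_nonneg _))
    simp [hx0, hy0]
  · refine ⟨fun x => ⟨min (L - 1) ⌊(x + T) * L / (2 * T)⌋₊, by omega⟩, ?_⟩
    have key : ∀ x : ℝ, |x| ≤ T →
        ((min (L - 1) ⌊(x + T) * L / (2 * T)⌋₊ : ℕ) : ℝ) ≤ (x + T) * L / (2 * T) ∧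
        (x + T) * L / (2 * T) ≤ ((min (L - 1) ⌊(x + T) * L / (2 * T)⌋₊ : ℕ) : ℝ) + 1 := by
      intro x hx
      obtain ⟨h1, h2⟩ := abs_le.mp hx
      have h0 : 0 ≤ (x + T) * L / (2 * T) := by
        apply div_nonneg (mul_nonneg (by linarith) hLr.le) (by linarith)
      have hup : (x + T) * L / (2 * T) ≤ L := by
        rw [div_le_iff₀ (by linarith)]
        nlinarith
      constructor
      · refine le_trans ?_ (Nat.floor_le h0)
        exact_mod_cast min_le_right _ _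
      · rcases le_total (L - 1) ⌊(x + T) * L / (2 * T)⌋₊ with h | h
        · rw [min_eq_left h]
          have : ((L - 1 : ℕ) : ℝ) = L - 1 := by
            rw [Nat.cast_sub (by omega)]; simp
          rw [this]; linarith
        · rw [min_eq_right h]
          exact (Nat.lt_floor_add_one _).le
    intro x y hx hy hxy
    have hxy' : min (L - 1) ⌊(x + T) * L / (2 * T)⌋₊ = min (L - 1) ⌊(y + T) * L / (2 * T)⌋₊ :=
      congrArg Fin.val hxy
    obtain ⟨a1, a2⟩ := key x hx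
    obtain ⟨b1, b2⟩ := key y hy
    rw [hxy'] at a1 a2
    have hd : |(x + T) * L / (2 * T) - (y + T) * L / (2 * T)| ≤ 1 := by
      rw [abs_le]; constructor <;> linarith
    have e : x - y = ((x + T) * L / (2 * T) - (y + T) * L / (2 * T)) * (2 * T / L) := by
      field_simp; ring
    have hp : 0 < 2 * T / L := by positivity
    rw [e, abs_mul, abs_of_pos hp]
    nlinarith

theorem abs_sum_le {ι : Type} [Fintype ι] (c a : ι → ℝ) (A B : ℝ) (hB : 0 ≤ B)
    (hc : ∀ i, |c i| ≤ B) (ha : ∑ i, |a i| ≤ A) : |∑ i, c i * a i| ≤ A * B := by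
  calc |∑ i, c i * a i| ≤ ∑ i, |c i * a i| := Finset.abs_sum_le_sum_abs _ _
    _ ≤ ∑ i, B * |a i| := by
        refine Finset.sum_le_sum fun i _ => ?_
        rw [abs_mul]
        exact mul_le_mul_of_nonneg_right (hc i) (abs_nonneg _)
    _ = B * ∑ i, |a i| := by rw [Finset.mul_sum]
    _ ≤ A * B := by rw [mul_comm]; exact mul_le_mul_of_nonneg_right ha hB

theorem box : H28.BoxStmt := by
  intro ι κ _ _ a A B L hL ha hcard
  classical
  obtain ⟨f, hf⟩ := exists_boxes (A * B) L hL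
  have hlt : Fintype.card (κ → Fin L) < Fintype.card (ι → Fin (B + 1)) := by
    simpa [Fintype.card_fun] using hcard
  obtain ⟨c, c', hne, heq⟩ := Fintype.exists_ne_map_eq_of_card_lt
    (fun c : ι → Fin (B + 1) => fun k : κ => f (∑ i, ((c i : ℕ) : ℝ) * a k i)) hlt
  have hb : ∀ (c : ι → Fin (B + 1)) (i : ι), |((c i : ℕ) : ℝ)| ≤ B := by
    intro c i
    rw [abs_of_nonneg (Nat.cast_nonneg _)]
    exact_mod_cast Nat.lt_succ_iff.mp (c i).2
  refine ⟨fun i => ((c i : ℕ) : ℤ) - ((c' i : ℕ) : ℤ), ?_, ?_, ?_⟩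
  · intro h
    apply hne
    funext i
    have := congrFun h i
    simp only [Pi.zero_apply] at this
    apply Fin.ext
    omega
  · intro i
    have h1 := (c i).2
    have h2 := (c' i).2
    beta_reduce
    rw [abs_le]; constructor <;> omega
  · intro k
    have h := hf _ _ (abs_sum_le _ _ A B (Nat.cast_nonneg _) (hb c) (ha k))
      (abs_sum_le _ _ A B (Nat.cast_nonneg _) (hb c') (ha k)) (congrFun heq k)
    rw [← Finset.sum_sub_distrib] at h
    have e : ∑ i, (((((c i : ℕ) : ℤ) - ((c' i : ℕ) : ℤ) : ℤ)) : ℝ) * a k i =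
        ∑ i, (((c i : ℕ) : ℝ) * a k i - ((c' i : ℕ) : ℝ) * a k i) := by
      refine Finset.sum_congr rfl fun i _ => ?_
      push_cast; ring
    rw [e, mul_assoc]
    exact h

/-- Simultaneous Dirichlet approximation. -/
theorem dirichlet (d : ℕ) (b : Fin d → ℝ) (η : ℝ) (h0 : 0 < η) (h1 : η ≤ 1) :
    ∃ (q : ℕ) (p : Fin d → ℤ), 1 ≤ q ∧ (q : ℝ) ≤ (3 / η) ^ d ∧ ∀ k, |(p k : ℝ) - q * b k| ≤ η := by
  classical
  set L : ℕ := ⌈2 / η⌉₊ with hLdef
  have h2 : 0 < 2 / η := by positivity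
  have hL : 0 < L := Nat.ceil_pos.mpr h2
  have hLr : (0 : ℝ) < L := by exact_mod_cast hL
  have hL1 : 2 / η ≤ L := Nat.le_ceil _
  have hL2 : (L : ℝ) ≤ 3 / η := by
    have := (Nat.ceil_lt_add_one h2.le).le
    have h3 : 1 ≤ 1 / η := by rw [le_div_iff₀ h0]; linarith
    have h4 : 3 / η = 2 / η + 1 / η := by ring
    rw [h4]; linarith
  obtain ⟨f, hf⟩ := exists_boxes 1 L hL
  have hlt : Fintype.card (Fin d → Fin L) < Fintype.card (Fin (L ^ d + 1)) := by
    simp
  have main : ∀ q q' : Fin (L ^ d + 1), q' < q →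
      (fun k : Fin d => f (Int.fract (((q : ℕ) : ℝ) * b k))) =
        (fun k : Fin d => f (Int.fract (((q' : ℕ) : ℝ) * b k))) →
      ∃ (q : ℕ) (p : Fin d → ℤ), 1 ≤ q ∧ (q : ℝ) ≤ (3 / η) ^ d ∧
        ∀ k, |(p k : ℝ) - q * b k| ≤ η := by
    intro q q' hq heq
    have hq' : (q' : ℕ) < q := hq
    refine ⟨q - q', fun k => ⌊((q : ℕ) : ℝ) * b k⌋ - ⌊((q' : ℕ) : ℝ) * b k⌋, by omega, ?_, ?_⟩
    · have hle : (q : ℕ) - q' ≤ L ^ d := by have := q.2; omega
      calc (((q : ℕ) - q' : ℕ) : ℝ) ≤ ((L ^ d : ℕ) : ℝ) := by exact_mod_cast hle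
        _ = (L : ℝ) ^ d := by push_cast; rfl
        _ ≤ (3 / η) ^ d := pow_le_pow_left₀ hLr.le hL2 d
    · intro k
      have hfr : ∀ x : ℝ, |Int.fract x| ≤ 1 := fun x => by
        rw [abs_of_nonneg (Int.fract_nonneg x)]; exact (Int.fract_lt_one x).le
      have h := hf _ _ (hfr _) (hfr _) (congrFun heq k)
      have h5 : 2 * 1 / (L : ℝ) ≤ η := by
        rw [div_le_iff₀ hLr]
        rw [div_le_iff₀ h0] at hL1
        linarith
      rw [Nat.cast_sub hq'.le, abs_sub_comm]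
      refine le_trans (le_of_eq ?_) (h.trans h5)
      congr 1
      simp only [Int.fract]
      push_cast; ring
  obtain ⟨q, q', hne, heq⟩ := Fintype.exists_ne_map_eq_of_card_lt
    (fun q : Fin (L ^ d + 1) => fun k : Fin d => f (Int.fract (((q : ℕ) : ℝ) * b k))) hlt
  rcases lt_or_gt_of_ne hne with h | h
  · exact main q' q h heq.symm
  · exact main q q' h heq

/-- Common denominator of finitely many rationals. -/
theorem exists_den {ι : Type} (s : Finset ι) (r : ι → ℚ) :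
    ∃ q : ℕ, 1 ≤ q ∧ ∀ i ∈ s, ∃ z : ℤ, (q : ℚ) * r i = z := by
  classical
  refine ⟨∏ i ∈ s, (r i).den, Nat.one_le_iff_ne_zero.mpr
    (Finset.prod_ne_zero_iff.mpr fun i _ => (r i).den_nz), fun i hi => ?_⟩
  obtain ⟨m, hm⟩ := Finset.dvd_prod_of_mem (fun i => (r i).den) hi
  refine ⟨m * (r i).num, ?_⟩
  rw [hm]
  push_cast
  rw [← Rat.den_mul_eq_num]
  ring

theorem trans : H28.TransStmt := by
  intro S hS
  classical
  have : Module.Finite ℚ (Submodule.span ℚ S) := Module.Finite.span_of_finite ℚ hS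
  set d := Module.finrank ℚ (Submodule.span ℚ S) with hd
  let b : Module.Basis (Fin d) ℚ (Submodule.span ℚ S) := Module.finBasis ℚ _
  have : Fintype S := hS.fintype
  let r : S × Fin d → ℚ := fun x => b.repr ⟨x.1.1, Submodule.subset_span x.1.2⟩ x.2
  obtain ⟨q0, hq0, hz⟩ := exists_den (Finset.univ : Finset (S × Fin d)) r
  choose z hz using fun x => hz x (Finset.mem_univ x)
  set C1 : ℝ := ∑ g : S, ∑ k : Fin d, |(z (g, k) : ℝ)| with hC1
  have hC1n : 0 ≤ C1 := Finset.sum_nonneg fun g _ => Finset.sum_nonneg fun k _ => abs_nonneg _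
  have hq0r : (1 : ℝ) ≤ q0 := by exact_mod_cast hq0
  refine ⟨q0 * (3 * (C1 + 1)) ^ d, by positivity, fun η h0 h1 => ?_⟩
  have hη1 : η / (C1 + 1) ≤ 1 := by
    rw [div_le_iff₀ (by linarith)]; linarith
  obtain ⟨q, p, hq1, hq2, hp⟩ := dirichlet d (fun k => (b k : ℝ)) (η / (C1 + 1))
    (by positivity) hη1
  have hqr : (1 : ℝ) ≤ q := by exact_mod_cast hq1
  obtain ⟨ψ, hψ⟩ := LinearMap.exists_extend
    (b.constr ℚ (fun k => (q0 : ℝ) * p k) : Submodule.span ℚ S →ₗ[ℚ] ℝ)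
  refine ⟨q0 * q, ψ, by nlinarith, ?_, fun g hg => ?_⟩
  · have e : (3 / (η / (C1 + 1))) ^ d = (3 * (C1 + 1)) ^ d / η ^ d := by
      rw [← div_pow]; congr 1; field_simp
    rw [mul_div_assoc, ← e]
    exact mul_le_mul_of_nonneg_left hq2 (by linarith)
  · have hzr : ∀ k, (q0 : ℝ) * (r (⟨g, hg⟩, k) : ℝ) = z (⟨g, hg⟩, k) := fun k => by
      exact_mod_cast congrArg (fun x : ℚ => (x : ℝ)) (hz (⟨g, hg⟩, k))
    have h1 : ψ g = ∑ k, (z (⟨g, hg⟩, k) : ℝ) * p k := by
      have := LinearMap.congr_fun hψ ⟨g, Submodule.subset_span hg⟩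
      simp only [LinearMap.comp_apply, Submodule.subtype_apply] at this
      rw [this, Module.Basis.constr_apply_fintype]
      refine Finset.sum_congr rfl fun k _ => ?_
      rw [← hzr k, Rat.smul_def]
      simp only [r, Module.Basis.equivFun_apply]
      ring
    have h2 : (q0 : ℝ) * g = ∑ k, (z (⟨g, hg⟩, k) : ℝ) * (b k : ℝ) := by
      have := congrArg (fun v : Submodule.span ℚ S => (v : ℝ))
        (b.sum_repr ⟨g, Submodule.subset_span hg⟩)
      simp only [Submodule.coe_sum, Submodule.coe_smul] at this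
      refine (congrArg (fun t : ℝ => (q0 : ℝ) * t) this.symm).trans ?_
      rw [Finset.mul_sum]
      refine Finset.sum_congr rfl fun k _ => ?_
      rw [← hzr k, Rat.smul_def]
      simp only [r]
      ring
    refine ⟨⟨∑ k, z (⟨g, hg⟩, k) * p k, by rw [h1]; push_cast; rfl⟩, ?_⟩
    have h3 : ψ g - q0 * q * g = ∑ k, ((p k : ℝ) - q * (b k : ℝ)) * (z (⟨g, hg⟩, k) : ℝ) := by
      rw [h1, mul_comm (q0 : ℝ) q, mul_assoc, h2, Finset.mul_sum, ← Finset.sum_sub_distrib]
      refine Finset.sum_congr rfl fun k _ => ?_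
      ring
    have h4 : ∑ k, |(z (⟨g, hg⟩, k) : ℝ)| ≤ C1 :=
      Finset.single_le_sum (f := fun g : S => ∑ k : Fin d, |(z (g, k) : ℝ)|)
        (fun g _ => Finset.sum_nonneg fun k _ => abs_nonneg _) (Finset.mem_univ _)
    have h5 := abs_sum_le _ _ C1 (η / (C1 + 1)) (by positivity) hp h4
    rw [h3]
    refine h5.trans ?_
    rw [← mul_div_assoc, div_le_iff₀ (by linarith)]
    nlinarith

end Pool.Agent.MP_807c24_nt.H84
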